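import Pool.Agent.Y119.J.Fam
import Pool.Agent.Y120.J.Defs3

/-!
# The family at `X = - 1 / t` satisfies the hypothesis of the theorem on tuples
-/

set_option autoImplicit false

open PowerSeries Pool.Agent.Y113 Pool.Agent.Y119.HZ Pool.Agent.Y120.J

namespace Pool.Agent.Y949.J

/-- `X ↦ -X` -/
noncomputable abbrev rs : ℚ⟦X⟧ →+* ℚ⟦X⟧ := PowerSeries.rescale (-1 : ℚ)

theorem coeff_rs (f : ℚ⟦X⟧) (n : ℕ) : coeff n (rs f) = (-1) ^ n * coeff n f := by
  rw [rs, coeff_rescale]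

theorem coeff_theta (f : ℚ⟦X⟧) (n : ℕ) : coeff n (X * d⁄dX ℚ f) = n * coeff n f := by
  cases n with
  | zero => simp
  | succ n =>
    rw [coeff_succ_X_mul, coeff_derivative]
    push_cast
    ring

theorem theta_rs (f : ℚ⟦X⟧) : X * d⁄dX ℚ (rs f) = rs (X * d⁄dX ℚ f) := by
  ext n
  rw [coeff_theta, coeff_rs, coeff_rs, coeff_theta]
  ring

theorem SDc_rs {f : ℚ⟦X⟧} (h : SDc f) : SDc (rs f) := by
  obtain ⟨n, h1, h2⟩ := h
  refine ⟨n, fun m => ?_, fun m => ?_⟩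
  · rw [coeff_rs]
    push_cast
    rw [abs_mul, abs_pow, abs_neg, abs_one, one_pow, one_mul]
    exact h1 m
  · obtain ⟨d, hd0, hd, hd'⟩ := h2 m
    refine ⟨d, hd0, hd, fun j hj => ?_⟩
    obtain ⟨a, ha⟩ := hd' j hj
    refine ⟨(-1) ^ j * a, ?_⟩
    rw [coeff_rs]
    push_cast
    rw [← ha]
    ring

/-- `(1 + 1728 X) ^ 2` -/
noncomputable def T1n : Polynomial ℤ := (1 + 1728 * Polynomial.X) ^ 2

/-- `X (82944 X + 372)` -/
noncomputable def Q1n : Polynomial ℤ := Polynomial.X * (82944 * Polynomial.X + 372)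

theorem rs_X : rs (X : ℚ⟦X⟧) = -X := by
  rw [rs, rescale_neg_one_X]

theorem psR_X : psR Polynomial.X = (X : ℚ⟦X⟧) := by
  rw [psR_apply]
  unfold ps
  rw [Polynomial.map_X, Polynomial.coe_X]

theorem rs_T1 : rs (ps Pool.Agent.Y120.J.T1) = ps T1n := by
  rw [← psR_apply, ← psR_apply]
  unfold Pool.Agent.Y120.J.T1 T1n
  simp only [map_pow, map_sub, map_add, map_mul, map_one, map_ofNat, psR_X, rs_X]
  ring

theorem rs_Q1 : rs (ps Q1) = ps Q1n := by
  rw [← psR_apply, ← psR_apply]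
  unfold Q1 Q1n
  simp only [map_sub, map_add, map_mul, map_ofNat, psR_X, rs_X]
  ring

theorem coeff_zero_rs (f : ℚ⟦X⟧) : coeff 0 (rs f) = coeff 0 f := by
  rw [coeff_rs]
  simp

theorem t_nfm (hode : T_ODE) (hsd : T_SD) : T_FM false := by
  intro δ
  obtain ⟨h1, h2, h3⟩ := hode
  obtain ⟨hF, hG⟩ := hsd
  have hF1 : SDc F1 := SDc.X.mul hF.deriv
  have hG1 : SDc G1 := (SDc.X.mul hG.deriv).add hF
  set H : Matrix (Fin 2) (Fin 2) ℚ⟦X⟧ := !![rs FF, rs GG; rs F1, rs G1] with hH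
  set W : Matrix (Fin 2) (Fin 2) ℚ⟦X⟧ := !![rs G1, -rs GG; -rs F1, rs FF] with hW
  have hT : T1n ≠ 0 := by
    intro h0
    have := congrArg (Polynomial.eval 0) h0
    simp [T1n] at this
  have hFF0 : coeff 0 (rs FF) = 1 := by
    rw [coeff_zero_rs]
    unfold FF
    rw [coeff_zero_eq_constantCoeff_apply, map_mul, ← coeff_zero_eq_constantCoeff_apply, ← coeff_zero_eq_constantCoeff_apply,
      coeff_mk, coeff_mk]
    simp [fu, fa]
  have hGG0 : coeff 0 (rs GG) = 0 := by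
    rw [coeff_zero_rs]
    unfold GG
    rw [coeff_zero_eq_constantCoeff_apply, map_mul, ← coeff_zero_eq_constantCoeff_apply, ← coeff_zero_eq_constantCoeff_apply,
      coeff_mk, coeff_mk]
    simp [fb]
  have hF10 : coeff 0 (rs F1) = 0 := by
    rw [coeff_zero_rs]
    unfold F1
    rw [coeff_zero_eq_constantCoeff_apply, map_mul, constantCoeff_X, zero_mul]
  have hG10 : coeff 0 (rs G1) = 1 := by
    rw [coeff_zero_rs] at hFF0 ⊢
    unfold G1
    rw [map_add, hFF0]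
    rw [coeff_zero_eq_constantCoeff_apply, map_mul, constantCoeff_X, zero_mul, zero_add]
  have h3' : rs FF * rs G1 - rs F1 * rs GG = 1 := by
    have := congrArg rs h3
    rwa [map_sub, map_mul, map_mul, map_one] at this
  have h1' : ps T1n * (X * d⁄dX ℚ (rs F1)) = ps Q1n * rs FF := by
    have := congrArg rs h1
    rwa [map_mul, map_mul rs (ps Q1), ← theta_rs, rs_T1, rs_Q1] at this
  have h2' : ps T1n * (X * d⁄dX ℚ (rs G1) + rs F1) = ps Q1n * rs GG := by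
    have := congrArg rs h2
    rwa [map_mul, map_mul rs (ps Q1), map_add, ← theta_rs, rs_T1, rs_Q1] at this
  have hF1' : rs F1 = X * d⁄dX ℚ (rs FF) := by
    rw [theta_rs]
    rfl
  have hG1' : rs G1 = X * d⁄dX ℚ (rs GG) + rs FF := by
    rw [theta_rs, ← map_add]
    rfl
  have hfam := fam_gen (n := 2) (H := H) (W := W) (N := !![0, 1; 0, 0]) (Nz := ![![0, 1], ![0, 0]]) (T₁ := T1n)
    (A := ![![0, T1n], ![Q1n, 0]]) ?_ ?_ hT ?_ ?_ ?_ ?_ ?_ δ
  · have he : (fun a : Fin (2 * 2) => H (ix 2 a).1 (ix 2 a).2) = hS false := by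
      funext a
      fin_cases a <;> rfl
    rw [he] at hfam
    exact hfam
  · rw [pow_two]
    ext i j
    fin_cases i <;> fin_cases j <;> simp [Matrix.mul_apply, Fin.sum_univ_two]
  · intro i j
    fin_cases i <;> fin_cases j <;> simp
  · rw [hH, hW, Matrix.mul_fin_two]
    refine Matrix.ext fun i j => ?_
    fin_cases i <;> fin_cases j
    · show rs FF * rs G1 + rs GG * -rs F1 = 1
      linear_combination h3'
    · show rs FF * -rs GG + rs GG * rs FF = 0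
      ring
    · show rs F1 * rs G1 + rs G1 * -rs F1 = 0
      ring
    · show rs F1 * -rs GG + rs G1 * rs FF = 1
      linear_combination h3'
  · intro i j
    fin_cases i <;> fin_cases j
    · exact hFF0
    · exact hGG0
    · exact hF10
    · exact hG10
  · intro i j
    have h0 : ps (0 : Polynomial ℤ) = 0 := by
      unfold ps
      simp
    fin_cases i <;> fin_cases j
    · show ps T1n * (X * d⁄dX ℚ (rs FF) + ∑ k, H 0 k * C ((!![0, 1; 0, 0] : Matrix (Fin 2) (Fin 2) ℚ) k 0)) =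
        ∑ k, ps ((![![0, T1n], ![Q1n, 0]] : Fin 2 → Fin 2 → Polynomial ℤ) 0 k) * H k 0
      rw [Fin.sum_univ_two, Fin.sum_univ_two]
      show ps T1n * (X * d⁄dX ℚ (rs FF) + (rs FF * C (0 : ℚ) + rs GG * C (0 : ℚ))) = ps 0 * rs FF + ps T1n * rs F1
      rw [h0, map_zero, hF1']
      ring
    · show ps T1n * (X * d⁄dX ℚ (rs GG) + ∑ k, H 0 k * C ((!![0, 1; 0, 0] : Matrix (Fin 2) (Fin 2) ℚ) k 1)) =
        ∑ k, ps ((![![0, T1n], ![Q1n, 0]] : Fin 2 → Fin 2 → Polynomial ℤ) 0 k) * H k 1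
      rw [Fin.sum_univ_two, Fin.sum_univ_two]
      show ps T1n * (X * d⁄dX ℚ (rs GG) + (rs FF * C (1 : ℚ) + rs GG * C (0 : ℚ))) = ps 0 * rs GG + ps T1n * rs G1
      rw [h0, map_zero, map_one, hG1']
      ring
    · show ps T1n * (X * d⁄dX ℚ (rs F1) + ∑ k, H 1 k * C ((!![0, 1; 0, 0] : Matrix (Fin 2) (Fin 2) ℚ) k 0)) =
        ∑ k, ps ((![![0, T1n], ![Q1n, 0]] : Fin 2 → Fin 2 → Polynomial ℤ) 1 k) * H k 0
      rw [Fin.sum_univ_two, Fin.sum_univ_two]
      show ps T1n * (X * d⁄dX ℚ (rs F1) + (rs F1 * C (0 : ℚ) + rs G1 * C (0 : ℚ))) = ps Q1n * rs FF + ps 0 * rs F1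
      rw [h0, map_zero, ← h1']
      ring
    · show ps T1n * (X * d⁄dX ℚ (rs G1) + ∑ k, H 1 k * C ((!![0, 1; 0, 0] : Matrix (Fin 2) (Fin 2) ℚ) k 1)) =
        ∑ k, ps ((![![0, T1n], ![Q1n, 0]] : Fin 2 → Fin 2 → Polynomial ℤ) 1 k) * H k 1
      rw [Fin.sum_univ_two, Fin.sum_univ_two]
      show ps T1n * (X * d⁄dX ℚ (rs G1) + (rs F1 * C (1 : ℚ) + rs G1 * C (0 : ℚ))) = ps Q1n * rs GG + ps 0 * rs G1
      rw [h0, map_zero, map_one, ← h2']
      ring
  · intro i j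
    fin_cases i <;> fin_cases j
    · exact SDc_rs hF
    · exact SDc_rs hG
    · exact SDc_rs hF1
    · exact SDc_rs hG1
  · intro i j
    fin_cases i <;> fin_cases j
    · exact SDc_rs hG1
    · exact SDc_neg (SDc_rs hG)
    · exact SDc_neg (SDc_rs hF1)
    · exact SDc_rs hF

end Pool.Agent.Y949.J
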