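import Pool.Agent.Y949.J.Ram

set_option autoImplicit false

open UpperHalfPlane hiding I
open Real Complex Filter Topology Derivative EisensteinSeries ModularForm MatrixGroups Function CuspForm
open scoped Manifold MatrixGroups ModularForm

namespace Pool.Agent.Y949.J

theorem isBounded_of_tendsto {F : ℍ → ℂ} {c : ℂ} (h : Tendsto F atImInfty (𝓝 c)) :
    IsBoundedAtImInfty F := h.isBigO_one ℝ

/-- comparison of a Serre derivative with a form of the same weight -/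
theorem serre_eq {k : ℤ} (hk : k + 2 < 12) {F H : ℍ → ℂ} (hF : MDiff F) (hs : ∀ γ : SL(2, ℤ), F ∣[k] γ = F)
    (hl : Tendsto F atImInfty (𝓝 1)) (hH : MDiff H) (hHs : ∀ γ : SL(2, ℤ), H ∣[k + 2] γ = H)
    (hHl : Tendsto H atImInfty (𝓝 1)) (z : ℍ) :
    D F z = (k : ℂ) / 12 * (E2 z * F z - H z) := by
  have h0 : serreDerivative (k : ℂ) F + ((k : ℂ) / 12) • H = 0 := by
    apply eq_zero_of_tendsto hk
    · exact (serreDerivative_mdifferentiable _ hF).add (hH.const_smul _)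
    · intro γ
      rw [SlashAction.add_slash, serreDerivative_slash_invariant hF (hs γ), ModularForm.SL_smul_slash, hHs γ]
    · have h1 := tendsto_D hF (isBounded_of_tendsto hl)
      have h2 := tendsto_E2.mul hl
      have h3 := (h1.sub (h2.const_mul ((k : ℂ) / 12))).add (hHl.const_mul ((k : ℂ) / 12))
      have h4 : (0 : ℂ) - (k : ℂ) / 12 * (1 * 1) + (k : ℂ) / 12 * 1 = 0 := by ring
      rw [h4] at h3
      refine h3.congr ?_
      intro w
      simp only [Pi.add_apply, Pi.smul_apply, smul_eq_mul, serreDerivative_apply]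
      ring
  have h1 := congrFun h0 z
  simp only [Pi.add_apply, Pi.smul_apply, smul_eq_mul, serreDerivative_apply, Pi.zero_apply] at h1
  linear_combination h1

theorem ram4 (z : ℍ) : D (fun w => E₄ w) z = 3⁻¹ * (E2 z * E₄ z - E₆ z) := by
  have h := serre_eq (k := 4) (by norm_num) (F := (E₄ : ℍ → ℂ)) (H := (E₆ : ℍ → ℂ)) (ModularFormClass.holo E₄)
    (fun γ => slash_modularForm E₄ γ) tendsto_E4 (ModularFormClass.holo E₆) (fun γ => slash_modularForm E₆ γ) tendsto_E6 z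
  have h2 : ((4 : ℤ) : ℂ) / 12 = 3⁻¹ := by norm_num
  rw [h2] at h
  exact h

theorem ram6 (z : ℍ) : D (fun w => E₆ w) z = 2⁻¹ * (E2 z * E₆ z - E₄ z ^ 2) := by
  have h := serre_eq (k := 6) (by norm_num) (F := (E₆ : ℍ → ℂ)) (H := (E₄ : ℍ → ℂ) * (E₄ : ℍ → ℂ)) (ModularFormClass.holo E₆)
    (fun γ => slash_modularForm E₆ γ) tendsto_E6 ((ModularFormClass.holo E₄).mul (ModularFormClass.holo E₄))
    (fun γ => by
      have h1 := ModularForm.mul_slash_SL2 4 4 γ (E₄ : ℍ → ℂ) (E₄ : ℍ → ℂ)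
      have h2 : (E₄ : ℍ → ℂ) ∣[(4 : ℤ)] γ = E₄ := slash_modularForm E₄ γ
      rw [h2] at h1
      exact h1) (by
      have h1 := tendsto_E4.mul tendsto_E4
      rw [mul_one] at h1
      exact h1) z
  have h2 : ((6 : ℤ) : ℂ) / 12 = 2⁻¹ := by norm_num
  rw [h2] at h
  rw [pow_two]
  exact h

theorem hasDerivAt_D2 (γ : SL(2, ℤ)) (z : ℍ) :
    HasDerivAt (D2 γ ∘ ofComplex) (2 * π * I * -((γ 1 0 : ℂ) / denom γ z) ^ 2) z := by
  have h1 := hasDerivAt_denom_zpow (γ : GL (Fin 2) ℝ) (-1) z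
  have h2 : (D2 γ ∘ ofComplex) =ᶠ[𝓝 ↑z] fun w => (2 * π * I * γ 1 0 : ℂ) * (denom γ w) ^ (-1 : ℤ) := by
    filter_upwards [isOpen_upperHalfPlaneSet.mem_nhds z.im_pos] with w hw
    have hw' : 0 < w.im := hw
    rw [Function.comp_apply, ofComplex_apply_of_im_pos hw', D2, zpow_neg_one]
    rfl
  have h3 := (h1.const_mul (2 * π * I * γ 1 0 : ℂ)).congr_of_eventuallyEq h2
  refine h3.congr_deriv ?_
  have h4 : denom γ z ≠ 0 := denom_ne_zero _ z
  have h6 : (((γ : GL (Fin 2) ℝ) 1 0 : ℝ) : ℂ) = (γ 1 0 : ℂ) := by simp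
  rw [h6]
  have h7 : (-1 - 1 : ℤ) = -2 := by norm_num
  rw [h7, zpow_neg]
  have h8 : (denom γ (z : ℂ)) ^ (2 : ℤ) = (denom γ (z : ℂ)) ^ 2 := by norm_cast
  rw [h8, div_pow]
  push_cast
  field_simp

theorem D_D2 (γ : SL(2, ℤ)) (z : ℍ) :
    D (D2 γ) z = -((γ 1 0 : ℂ) / denom γ z) ^ 2 := by
  have h5 : (2 * π * I : ℂ) ≠ 0 := Complex.two_pi_I_ne_zero
  rw [normalizedDerivOfComplex, (hasDerivAt_D2 γ z).deriv, inv_mul_cancel_left₀ h5]

theorem mdiff_D2 (γ : SL(2, ℤ)) : MDiff (D2 γ) := by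
  intro z
  exact UpperHalfPlane.mdifferentiableAt_iff.mpr (hasDerivAt_D2 γ z).differentiableAt

theorem ram2_slash (γ : SL(2, ℤ)) :
    (D E2 - (12⁻¹ : ℂ) • (E2 * E2)) ∣[(4 : ℤ)] γ = D E2 - (12⁻¹ : ℂ) • (E2 * E2) := by
  have hE := E2_slash_action γ
  have h1 : D (E2 ∣[(2 : ℤ)] γ) = D E2 - (1 / (2 * riemannZeta 2)) • D (D2 γ) := by
    rw [hE, normalizedDerivOfComplex_sub _ _ E2_mdifferentiable ((mdiff_D2 γ).const_smul _),
      normalizedDerivOfComplex_smul _ _ (mdiff_D2 γ)]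
  have h2 := normalizedDerivOfComplex_SL_slash (k := 2) E2_mdifferentiable (γ := γ)
  rw [h1, hE] at h2
  have h3 : (E2 * E2) ∣[(4 : ℤ)] γ = E2 ∣[(2 : ℤ)] γ * E2 ∣[(2 : ℤ)] γ :=
    ModularForm.mul_slash_SL2 2 2 γ E2 E2
  rw [hE] at h3
  rw [sub_eq_add_neg, ← _root_.neg_smul, SlashAction.add_slash, ModularForm.SL_smul_slash, h3]
  funext z
  have h4 := congrFun h2 z
  have h5 : ((2 : ℤ) + 2) = 4 := by norm_num
  rw [h5] at h4
  simp only [Pi.add_apply, Pi.sub_apply, Pi.mul_apply, Pi.smul_apply, smul_eq_mul, D_D2] at h4 ⊢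
  rw [D2, riemannZeta_two] at *
  have h6 : (D E2 ∣[(4 : ℤ)] γ) z = D E2 z - 1 / (2 * ((π : ℂ) ^ 2 / 6)) * -((γ 1 0 : ℂ) / denom γ z) ^ 2 +
      ((2 : ℤ) : ℂ) * (2 * π * I)⁻¹ * (γ 1 0 / denom γ z) * (E2 z - 1 / (2 * ((π : ℂ) ^ 2 / 6)) * (2 * π * I * γ 1 0 / denom γ z)) := by
    linear_combination -h4
  rw [h6]
  have hI : I ^ 2 = -1 := I_sq
  have hI2 : (2 * π * I : ℂ)⁻¹ = -I / (2 * π) := by
    have hpi : (π : ℂ) ≠ 0 := by exact_mod_cast Real.pi_ne_zero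
    have h5 : (2 * π * I : ℂ) ≠ 0 := Complex.two_pi_I_ne_zero
    field_simp
    linear_combination hI
  rw [hI2]
  have hpi : (π : ℂ) ≠ 0 := by exact_mod_cast Real.pi_ne_zero
  have hd : denom γ z ≠ 0 := denom_ne_zero _ z
  push_cast
  generalize (γ 1 0 : ℂ) = c
  generalize denom γ z = d at hd ⊢
  field_simp
  ring_nf
  rw [hI]
  ring

theorem ram2 (z : ℍ) : D E2 z = 12⁻¹ * (E2 z ^ 2 - E₄ z) := by
  have h0 : (D E2 - (12⁻¹ : ℂ) • (E2 * E2)) + (12⁻¹ : ℂ) • (E₄ : ℍ → ℂ) = 0 := by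
    apply eq_zero_of_tendsto (k := 4) (by norm_num)
    · exact ((normalizedDerivOfComplex_mdifferentiable E2_mdifferentiable).sub
        ((E2_mdifferentiable.mul E2_mdifferentiable).const_smul _)).add ((ModularFormClass.holo E₄).const_smul _)
    · intro γ
      have h2 : (E₄ : ℍ → ℂ) ∣[(4 : ℤ)] γ = E₄ := slash_modularForm E₄ γ
      rw [SlashAction.add_slash, ram2_slash, ModularForm.SL_smul_slash, h2]
    · have h1 := tendsto_D E2_mdifferentiable isBoundedAtImInfty_E2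
      have h2 := tendsto_E2.mul tendsto_E2
      have h3 := (h1.sub (h2.const_mul (12⁻¹ : ℂ))).add (tendsto_E4.const_mul (12⁻¹ : ℂ))
      have h4 : (0 : ℂ) - 12⁻¹ * (1 * 1) + 12⁻¹ * 1 = 0 := by ring
      rw [h4] at h3
      exact h3
  have h1 := congrFun h0 z
  simp only [Pi.add_apply, Pi.sub_apply, Pi.mul_apply, Pi.smul_apply, smul_eq_mul, Pi.zero_apply] at h1
  linear_combination h1

end Pool.Agent.Y949.J
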