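import Pool.Agent.Y120.J.Defs
import Pool.Agent.Y949.J.Ram2

/-!
# Ramanujan's identities for `E₂`, `E₄`, `E₆`
-/

set_option autoImplicit false

namespace Pool.Agent.Y949.J

theorem t_RAM46 : Pool.Agent.Y120.J.T_RAM46 := fun z => ⟨ram4 z, ram6 z⟩

theorem t_RAM2 : Pool.Agent.Y120.J.T_RAM2 := fun z => ram2 z

end Pool.Agent.Y949.J
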