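import Mathlib

set_option autoImplicit false

open UpperHalfPlane hiding I
open Real Complex Filter Topology Derivative EisensteinSeries ModularForm MatrixGroups Function CuspForm
open scoped Manifold MatrixGroups ModularForm

namespace Pool.Agent.Y949.J

/-- A slash invariant function of weight `k < 12` that tends to zero at `i∞` vanishes. -/
theorem eq_zero_of_tendsto {k : ℤ} (hk : k < 12) {G : ℍ → ℂ} (hG : MDiff G)
    (hs : ∀ γ : SL(2, ℤ), G ∣[k] γ = G) (h0 : Tendsto G atImInfty (𝓝 0)) : G = 0 := by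
  let f : CuspForm 𝒮ℒ k :=
    { toFun := G
      slash_action_eq' := fun _ ⟨γ, hγ⟩ ↦ hγ ▸ hs γ
      holo' := hG
      zero_at_cusps' := by
        intro c hc
        rw [Subgroup.IsArithmetic.isCusp_iff_isCusp_SL2Z] at hc
        rw [OnePoint.isZeroAt_iff_forall_SL2Z hc]
        intro γ _
        rw [hs γ]
        exact h0 }
  have h1 : f = 0 := rank_zero_iff_forall_zero.mp (CuspForm.rank_eq_zero_of_weight_lt_twelve hk) f
  have h2 : (f : ℍ → ℂ) = 0 := by rw [h1]; rfl
  exact h2

/-- The derivative of a bounded function tends to zero at `i∞`. -/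
theorem tendsto_D {F : ℍ → ℂ} (hF : MDiff F) (hb : IsBoundedAtImInfty F) :
    Tendsto (D F) atImInfty (𝓝 0) := by
  rw [UpperHalfPlane.isBoundedAtImInfty_iff] at hb
  obtain ⟨M, A, hMA⟩ := hb
  rw [UpperHalfPlane.mdifferentiable_iff] at hF
  set B := max A 1 with hB
  have hB1 : 1 ≤ B := le_max_right _ _
  have hM : ∀ z : ℍ, B ≤ z.im → ‖F z‖ ≤ max M 0 := fun z hz =>
    (hMA z ((le_max_left _ _).trans hz)).trans (le_max_left _ _)
  have hM0 : 0 ≤ max M 0 := le_max_right _ _
  have key : ∀ z : ℍ, 2 * B ≤ z.im → ‖D F z‖ ≤ (2 * π)⁻¹ * (2 * max M 0 / z.im) := by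
    intro z hz
    have hz0 : 0 < z.im := z.im_pos
    have hsub : Metric.closedBall (z : ℂ) (z.im / 2) ⊆ {w : ℂ | z.im / 2 ≤ w.im} := by
      intro w hw
      rw [Metric.mem_closedBall, dist_eq_norm] at hw
      have h1 : |(w - z).im| ≤ z.im / 2 := (Complex.abs_im_le_norm _).trans hw
      rw [Complex.sub_im, abs_le] at h1
      have h2 : ((z : ℂ)).im = z.im := rfl
      simp only [Set.mem_ofPred_eq]
      linarith [h1.1]
    have hd : DiffContOnCl ℂ (F ∘ ofComplex) (Metric.ball (z : ℂ) (z.im / 2)) := by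
      apply DifferentiableOn.diffContOnCl
      apply hF.mono
      refine (Metric.closure_ball_subset_closedBall).trans ?_
      intro w hw
      have := hsub hw
      simp only [Set.mem_ofPred_eq] at this
      show 0 < w.im
      linarith
    have hC : ∀ w ∈ Metric.sphere (z : ℂ) (z.im / 2), ‖(F ∘ ofComplex) w‖ ≤ max M 0 := by
      intro w hw
      have h1 := hsub (Metric.sphere_subset_closedBall hw)
      simp only [Set.mem_ofPred_eq] at h1
      have h2 : 0 < w.im := by linarith
      rw [Function.comp_apply, ofComplex_apply_of_im_pos h2]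
      apply hM
      show B ≤ w.im
      linarith
    have h3 := Complex.norm_deriv_le_of_forall_mem_sphere_norm_le (by linarith : 0 < z.im / 2) hd hC
    rw [normalizedDerivOfComplex, norm_mul]
    have h4 : ‖(2 * π * I : ℂ)⁻¹‖ = (2 * π)⁻¹ := by
      rw [norm_inv, norm_mul, norm_mul]
      simp [abs_of_pos Real.pi_pos]
    rw [h4]
    have h5 : max M 0 / (z.im / 2) = 2 * max M 0 / z.im := by field_simp
    rw [← h5]
    exact mul_le_mul_of_nonneg_left h3 (by positivity)
  have h6 : Tendsto (fun z : ℍ => (2 * π)⁻¹ * (2 * max M 0 / z.im)) atImInfty (𝓝 0) := by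
    have : Tendsto (fun z : ℍ => z.im) atImInfty atTop := tendsto_comap
    have h7 := (this.const_div_atTop (2 * max M 0)).const_mul ((2 * π)⁻¹)
    simpa using h7
  apply squeeze_zero_norm' _ h6
  have : ∀ᶠ z : ℍ in atImInfty, 2 * B ≤ z.im := by
    have h : Tendsto (fun z : ℍ => z.im) atImInfty atTop := tendsto_comap
    exact h.eventually (eventually_ge_atTop (2 * B))
  filter_upwards [this] with z hz using key z hz

/-- A holomorphic function with a `q`-expansion tends to the constant term at `i∞`. -/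
theorem tendsto_of_hasSum {f : ℍ → ℂ} (hf : MDiff f) {c : ℕ → ℂ}
    (hs : ∀ τ : ℍ, HasSum (fun m : ℕ => c m • Function.Periodic.qParam 1 τ ^ m) (f τ)) :
    Tendsto f atImInfty (𝓝 (c 0)) := by
  have hb : IsBoundedAtImInfty f := isBoundedAtImInfty_of_hasSum_qExpansion one_pos hs
  have hper : Function.Periodic (f ∘ ofComplex) (1 : ℝ) := by
    intro w
    by_cases hw : 0 < w.im
    · have hw1 : 0 < (w + (1 : ℝ)).im := by simpa using hw
      simp only [comp_apply, ofComplex_apply_of_im_pos hw1, ofComplex_apply_of_im_pos hw]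
      have h1 := hs ⟨w + (1 : ℝ), hw1⟩
      have h2 := hs ⟨w, hw⟩
      have h3 : Function.Periodic.qParam 1 (w + (1 : ℝ)) = Function.Periodic.qParam 1 w := by
        simp only [Function.Periodic.qParam, ofReal_one, div_one]
        rw [mul_add, mul_one, Complex.exp_add, Complex.exp_two_pi_mul_I, mul_one]
      change HasSum (fun m : ℕ => c m • Function.Periodic.qParam 1 (w + (1 : ℝ)) ^ m) _ at h1
      rw [h3] at h1
      exact h1.unique h2
    · have hw0 : w.im ≤ 0 := not_lt.mp hw
      have hw1 : (w + (1 : ℝ)).im ≤ 0 := by simpa using hw0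
      simp only [comp_apply, ofComplex_apply_of_im_nonpos hw0, ofComplex_apply_of_im_nonpos hw1]
  have ha := analyticAt_cuspFunction_zero one_pos hper hf hb
  have h0 := UpperHalfPlane.hasFPowerSeriesOnBall_cuspFunction one_pos ha hs
  have h1 : c 0 = valueAtInfty f := by
    rw [← UpperHalfPlane.cuspFunction_apply_zero one_pos ha hper, ← h0.coeff_zero (fun _ => 0)]
    simp
  rw [h1]
  have h2 := exp_decay_sub_atImInfty one_pos hper hf hb
  have h3 : Tendsto (fun τ : ℍ => Real.exp (-2 * π * τ.im / 1)) atImInfty (𝓝 0) := by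
    refine Real.tendsto_exp_atBot.comp ?_
    have : Tendsto (fun z : ℍ => z.im) atImInfty atTop := tendsto_comap
    have h4 := this.const_mul_atTop_of_neg (r := -2 * π) (by nlinarith [Real.pi_pos])
    simpa using h4
  have h4 := h2.trans_tendsto h3
  have h5 := h4.add_const (valueAtInfty f)
  simpa using h5

theorem tendsto_E2 : Tendsto E2 atImInfty (𝓝 1) := by
  have h := tendsto_of_hasSum E2_mdifferentiable (c := fun m : ℕ ↦ (if m = 0 then 1 else -24 * ArithmeticFunction.sigma 1 m : ℂ))
    (fun τ => by simpa only [Function.Periodic.qParam, ofReal_one, div_one] using hasSum_qExpansion_E2 (z := τ))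
  simpa using h

theorem tendsto_modularForm {k : ℤ} (f : ModularForm 𝒮ℒ k) :
    Tendsto f atImInfty (𝓝 ((qExpansion 1 f).coeff 0)) :=
  tendsto_of_hasSum (ModularFormClass.holo f)
    (fun τ => UpperHalfPlane.hasSum_qExpansion one_pos (SlashInvariantFormClass.periodic_comp_ofComplex f one_mem_strictPeriods_SL) (ModularFormClass.holo f) (ModularFormClass.bdd_at_infty f) τ)

theorem tendsto_E4 : Tendsto (E₄ : ℍ → ℂ) atImInfty (𝓝 1) := by
  have h := tendsto_modularForm E₄
  rwa [E_qExpansion_coeff_zero _ ⟨2, rfl⟩] at h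

theorem tendsto_E6 : Tendsto (E₆ : ℍ → ℂ) atImInfty (𝓝 1) := by
  have h := tendsto_modularForm E₆
  rwa [E_qExpansion_coeff_zero _ ⟨3, rfl⟩] at h

theorem slash_modularForm {k : ℤ} (f : ModularForm 𝒮ℒ k) (γ : SL(2, ℤ)) : (f : ℍ → ℂ) ∣[k] γ = f :=
  f.slash_action_eq' _ ⟨γ, rfl⟩

end Pool.Agent.Y949.J
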